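import Pool.Agent.Lib.MP_8ab79f_ag.Padic
import Pool.Agent.Lib.MP_8ab79f_ag.Six.HFinal

/-!
# R-equivalence on `p`-adic intersections of two quadrics in dimensions five and six

For smooth complete intersections of two quadrics in the projective space of dimension six over a
`p`-adic field having a rational point, all rational points are R-equivalent. In the projective
space of dimension five this fails over every `p`-adic field.
-/

set_option autoImplicit false

universe u

namespace Pool.Agent.Results.MP_8ab79f_ag.FiveAndSix

open Pool.Agent.Lib.MP_8ab79f_ag

/-- (i) For every prime `p` and every finite extension `k` of the field of `p`-adic numbers there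
is a smooth complete intersection of two quadrics in the projective space of dimension five over
`k` having at least two R-equivalence classes of `k`-points.
(ii) For every prime `p`, every finite extension `k` of the field of `p`-adic numbers and every
smooth complete intersection of two quadrics in the projective space of dimension six over `k`
having a `k`-point there is exactly one R-equivalence class of `k`-points. -/
theorem result :
    (∀ (p : ℕ) [Fact p.Prime] (k : Type u) [Field k] [Algebra ℚ_[p] k]
      [FiniteDimensional ℚ_[p] k],
      ∃ f g : MvPolynomial (Fin (5 + 1)) k, SmoothTwoQuadrics f g ∧ Nontrivial (RClasses f g)) ∧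
    (∀ (p : ℕ) [Fact p.Prime] (k : Type u) [Field k] [Algebra ℚ_[p] k]
      [FiniteDimensional ℚ_[p] k] (f g : MvPolynomial (Fin (6 + 1)) k),
      SmoothTwoQuadrics f g → (ratPoints f g).Nonempty → Nat.card (RClasses f g) = 1) := by
  refine ⟨fun p _ k _ _ _ => of_padic p k, fun p _ k _ _ _ f g hX hne => ?_⟩
  have h1 : Subsingleton (RClasses f g) := Six.subsingleton_RClasses p k f g hX
  obtain ⟨P, hP⟩ := hne
  have h2 : Nonempty (RClasses f g) := ⟨Quot.mk _ ⟨P, hP⟩⟩
  exact Nat.card_eq_one_iff_unique.2 ⟨h1, h2⟩

end Pool.Agent.Results.MP_8ab79f_ag.FiveAndSix
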